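import Pool.Agent.Q226.HLm.Main

/-!
# The weighted sum of Hall-Littlewood functions at `t = -1`

The definitions are in `Pool/Agent/Q226/HLm/Defs.lean`: the coefficient ring
`Coef = ℚ[a, b, c, d]`, the weight `omega` of a partition (list of rows), the Hall-Littlewood
polynomials `HL n t λ` in `n` variables, `w n t = ∑_λ ω(λ) P_λ(x_1, …, x_n; t)` and the correction
`corr n = ∑_{m odd} a^m c^m p_{2m} / (2m)
  + ∑_{m even} a^{m/2} c^{m/2} (a^{m/2} c^{m/2} - 2 b^{m/2} d^{m/2}) p_{2m} / (2m)`;
the last two are power series in a variable `z` that records the degree, so the coefficient of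
`z ^ N` is the part of degree `N`.

The theorem: `L = log w(x; -1) + corr` belongs to `ℚ[a, b, c, d][[p_1, p_3, p_5, …]]`. For every
degree `N` there is a polynomial `Φ N` in the odd power sums (the variable `k` of `Φ N` stands for
`p_{2k+1}`), the same for all numbers `n` of variables, which is the part of degree `N` of `L`.

Proof. By Macdonald's formula (III.2.2), if two of the variables are `t` and `-t` then only the
rearrangements `α` with equal exponents `r` at these two places contribute to `P_λ(x; -1)`, and all
factors that involve these two variables cancel. Hence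
`P_λ(t, -t, x; -1) = ∑_r (-1)^r t^{2r} P_{λ - (r, r)}(x; -1)`. Removing two equal rows `r` from `λ`
divides `ω(λ)` by `(ac)^⌈r/2⌉ (bd)^⌊r/2⌋`, so
`w(t, -t, x; -1) = (1 - ac t²) / (1 - abcd t⁴) w(x; -1)`, and `L(t, -t, x) = L(x)`. A symmetric
function with this property is a polynomial in the odd power sums.
-/

set_option autoImplicit false

namespace Pool.Agent.Results.MP_f6dccc_co.OddPowerSums

open Q226.HLm

/-- The part of degree `N` of `log w(x; -1) + corr` is a polynomial `Φ N` in the odd power sums
`p_1, p_3, p_5, …` with coefficients in `ℚ[a, b, c, d]`, in every number `n` of variables. -/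
theorem result : ∃ Φ : ℕ → MvPolynomial ℕ Coef, ∀ n N : ℕ,
    PowerSeries.coeff N (PowerSeries.logOf (w n (-1)) + corr n) =
      algebraMap (MvPolynomial (Fin n) Coef) (Rat n)
        (MvPolynomial.aeval (fun k => MvPolynomial.psum (Fin n) Coef (2 * k + 1)) (Φ N)) :=
  main

end Pool.Agent.Results.MP_f6dccc_co.OddPowerSums
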